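import Pool.Agent.Y250.SS.Stm3
import Pool.Agent.Y61.MB.M4

set_option autoImplicit false

/-!
# Project SS: the theorem of Tomas and Stein away from the endpoint (job SS-TS)
-/

namespace Pool.Agent.Y438.SS

open MeasureTheory Set Complex
open scoped ENNReal NNReal RealInnerProductSpace
open Pool.Agent.Helper793.Nir (E3 S2 sig)
open Pool.Agent.H789R2.FR (E sg T sg_finite)
open Pool.Agent.H438R2.PD (T_meas')
open Pool.Agent.Y250.SS (ft S_TS)

/-- the inequality of Cauchy and Schwarz -/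
theorem T_cs (g : E 3 → ℂ) (hg : Measurable g) (M : ℝ) (hM : ∀ w, ‖g w‖ ≤ M) (x : E 3) :
    ‖T g x‖ ^ 2 ≤ (sg 3).real univ * ∫ w, ‖g w‖ ^ 2 ∂(sg 3) := by
  have hsg : IsFiniteMeasure (sg 3) := sg_finite 3
  obtain ⟨S, hS⟩ : ∃ S : ℝ, S = (sg 3).real univ := ⟨_, rfl⟩
  have hS0 : 0 < S := by
    rw [hS]
    exact Pool.Agent.H438R2.BR.T7.sg_pos (by omega)
  have i1 : Integrable (fun w => ‖g w‖) (sg 3) :=
    Integrable.of_bound hg.norm.aestronglyMeasurable M
      (Filter.Eventually.of_forall fun w => by simpa using hM w)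
  have i2 : Integrable (fun w => ‖g w‖ ^ 2) (sg 3) :=
    Integrable.of_bound (hg.norm.pow_const 2).aestronglyMeasurable (M ^ 2)
      (Filter.Eventually.of_forall fun w => by
        rw [norm_pow, norm_norm]
        exact pow_le_pow_left₀ (norm_nonneg _) (hM w) 2)
  obtain ⟨L, hL⟩ : ∃ L : ℝ, L = ∫ w, ‖g w‖ ∂(sg 3) := ⟨_, rfl⟩
  obtain ⟨H, hH⟩ : ∃ H : ℝ, H = ∫ w, ‖g w‖ ^ 2 ∂(sg 3) := ⟨_, rfl⟩
  have hL0 : 0 ≤ L := by
    rw [hL]
    exact integral_nonneg fun w => norm_nonneg _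
  have h1 : ‖T g x‖ ≤ L := by
    rw [hL]
    unfold T
    refine (norm_integral_le_integral_norm _).trans (le_of_eq ?_)
    refine integral_congr_ae (Filter.Eventually.of_forall fun w => ?_)
    simp only
    have e : (-((⟪x, w⟫ : ℝ) : ℂ)) * I = ((-(⟪x, w⟫ : ℝ) : ℝ) : ℂ) * I := by push_cast; ring
    rw [norm_mul, e, Complex.norm_exp_ofReal_mul_I, one_mul]
  have h2 : 0 ≤ H - 2 * (L / S) * L + (L / S) ^ 2 * S := by
    have e : ∫ w, (‖g w‖ - L / S) ^ 2 ∂(sg 3) = H - 2 * (L / S) * L + (L / S) ^ 2 * S := by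
      have e1 : ∀ w, (‖g w‖ - L / S) ^ 2 = ‖g w‖ ^ 2 - 2 * (L / S) * ‖g w‖ + (L / S) ^ 2 :=
        fun w => by ring
      simp only [e1]
      have a1 : Integrable (fun w => 2 * (L / S) * ‖g w‖) (sg 3) := i1.const_mul _
      have a2 : Integrable (fun w => ‖g w‖ ^ 2 - 2 * (L / S) * ‖g w‖) (sg 3) := i2.sub a1
      rw [integral_add a2 (integrable_const _),
        integral_sub i2 a1, integral_const_mul, integral_const, smul_eq_mul,
        ← hL, ← hH, ← hS]
      ring
    rw [← e]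
    exact integral_nonneg fun w => sq_nonneg _
  have h3 : H - 2 * (L / S) * L + (L / S) ^ 2 * S = H - L ^ 2 / S := by
    field_simp
    ring
  rw [h3] at h2
  have h4 : L ^ 2 ≤ S * H := by
    have := sub_nonneg.1 h2
    rwa [div_le_iff₀' hS0] at this
  rw [← hS, ← hH]
  calc ‖T g x‖ ^ 2 ≤ L ^ 2 := by gcongr
    _ ≤ _ := h4

/-- densities of norm at most one -/
theorem est (P : ℝ) (hP : 4 < P) : ∃ C : ℝ, 0 < C ∧ ∀ g : E 3 → ℂ, Measurable g →
    (∃ M : ℝ, ∀ x, ‖g x‖ ≤ M) → ∫ w, ‖g w‖ ^ 2 ∂(sg 3) ≤ 1 →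
    ∫⁻ z, ‖T g z‖ₑ ^ P ≤ ENNReal.ofReal C := by
  obtain ⟨C, hC, hw⟩ := Pool.Agent.H789R2.FR.weak 3 (by norm_num)
  have hsg : IsFiniteMeasure (sg 3) := sg_finite 3
  have hP0 : 0 < P := by linarith
  set S : ℝ := (sg 3).real univ with hS
  have hS0 : 0 < S := Pool.Agent.H438R2.BR.T7.sg_pos (by omega)
  refine ⟨P * (C * ((S + 1) ^ (P - 5 + 1) / (P - 5 + 1))),
    ?_, fun g hg hb hH => ?_⟩
  · have hpos : 0 < P - 5 + 1 := by linarith
    positivity
  obtain ⟨M, hM⟩ := hb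
  have hTm : Measurable (T g) := T_meas' g hg
  have hTb : ∀ x, ‖T g x‖ ≤ S + 1 := fun x => by
    have h1 := T_cs g hg M hM x
    rw [← hS] at h1
    have h2 : S * ∫ w, ‖g w‖ ^ 2 ∂(sg 3) ≤ S * 1 := by gcongr
    refine abs_le_of_sq_le_sq' ?_ (by linarith) |>.2
    nlinarith
  have hH0 : 0 ≤ ∫ w, ‖g w‖ ^ 2 ∂(sg 3) := integral_nonneg fun w => by positivity
  -- level sets
  have hlev : ∀ t : ℝ, 0 < t → volume {x | t < ‖T g x‖} ≤
      ENNReal.ofReal (C * t ^ (-4 : ℝ)) := by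
    intro t ht
    have hms : MeasurableSet {x | t < ‖T g x‖} := measurableSet_lt measurable_const hTm.norm
    have hun : {x | t < ‖T g x‖} = ⋃ N : ℕ, {x | t < ‖T g x‖} ∩ Metric.closedBall (0 : E 3) N := by
      rw [← inter_iUnion, Metric.iUnion_closedBall_nat, inter_univ]
    rw [hun, Monotone.measure_iUnion]
    · apply iSup_le
      intro N
      have hfin : volume ({x | t < ‖T g x‖} ∩ Metric.closedBall (0 : E 3) N) ≠ ⊤ :=
        ((measure_mono inter_subset_right).trans_lt measure_closedBall_lt_top).ne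
      have h1 := hw g hg ⟨M, hM⟩ t ht ({x | t < ‖T g x‖} ∩ Metric.closedBall (0 : E 3) N)
        (hms.inter measurableSet_closedBall)
        (Metric.isBounded_closedBall.subset inter_subset_right) (fun x hx => le_of_lt hx.1)
      rw [← ENNReal.ofReal_toReal hfin]
      apply ENNReal.ofReal_le_ofReal
      change volume.real _ ≤ _
      refine h1.trans ?_
      have h2 : (∫ w, ‖g w‖ ^ 2 ∂(sg 3)) / t ^ 2 ≤ 1 / t ^ 2 := by gcongr
      have e2 : ((((3 : ℕ) : ℝ) + 1) / (((3 : ℕ) : ℝ) - 1)) = 2 := by norm_num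
      rw [e2]
      have h3 : ((∫ w, ‖g w‖ ^ 2 ∂(sg 3)) / t ^ 2) ^ (2 : ℝ) ≤
          (1 / t ^ 2) ^ (2 : ℝ) := Real.rpow_le_rpow (by positivity) h2 (by norm_num)
      have h4 : (1 / t ^ 2) ^ (2 : ℝ) = t ^ (-4 : ℝ) := by
        rw [Real.div_rpow zero_le_one (by positivity), Real.one_rpow, ← Real.rpow_natCast t 2,
          ← Real.rpow_mul ht.le, Real.rpow_neg ht.le, one_div]
        norm_num
      rw [← h4]
      gcongr
    · intro a b hab
      apply inter_subset_inter_right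
      apply Metric.closedBall_subset_closedBall
      exact_mod_cast hab
  have hlayer := lintegral_rpow_eq_lintegral_meas_lt_mul (volume : Measure (E 3))
    (f := fun x => ‖T g x‖) (Filter.Eventually.of_forall fun x => norm_nonneg _)
    hTm.norm.aemeasurable hP0
  have e1 : ∀ x, ‖T g x‖ₑ ^ P = ENNReal.ofReal (‖T g x‖ ^ P) := by
    intro x
    rw [← ofReal_norm, ENNReal.ofReal_rpow_of_nonneg (norm_nonneg _) hP0.le]
  simp only [e1]
  rw [hlayer]
  have h5 : ∫⁻ t in Ioi (0 : ℝ), volume {a | t < ‖T g a‖} * ENNReal.ofReal (t ^ (P - 1)) ≤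
      ∫⁻ t in Ioo (0 : ℝ) (S + 1), ENNReal.ofReal C *
        ENNReal.ofReal (t ^ (P - 5)) := by
    rw [← lintegral_indicator measurableSet_Ioi, ← lintegral_indicator measurableSet_Ioo]
    apply lintegral_mono
    intro t
    by_cases h0 : 0 < t
    · have m0 : t ∈ Ioi (0 : ℝ) := h0
      by_cases h1 : t < S + 1
      · have m1 : t ∈ Ioo (0 : ℝ) (S + 1) := ⟨h0, h1⟩
        simp only [indicator_of_mem m0, indicator_of_mem m1]
        calc volume {a | t < ‖T g a‖} * ENNReal.ofReal (t ^ (P - 1))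
            ≤ ENNReal.ofReal (C * t ^ (-4 : ℝ)) * ENNReal.ofReal (t ^ (P - 1)) := by
              gcongr
              exact hlev t h0
          _ = _ := by
              rw [← ENNReal.ofReal_mul (by positivity), ← ENNReal.ofReal_mul (by positivity)]
              congr 1
              rw [mul_assoc, ← Real.rpow_add h0]
              congr 2
              ring
      · have m1 : t ∉ Ioo (0 : ℝ) (S + 1) := fun h => h1 h.2
        simp only [indicator_of_mem m0, indicator_of_notMem m1]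
        have : {a | t < ‖T g a‖} = ∅ := by
          ext a
          simp only [mem_ofPred_eq, mem_empty_iff_false, iff_false, not_lt]
          linarith [hTb a]
        rw [this, measure_empty, zero_mul]
    · have m0 : t ∉ Ioi (0 : ℝ) := h0
      simp only [indicator_of_notMem m0]
      exact zero_le
  calc ENNReal.ofReal P * ∫⁻ t in Ioi (0 : ℝ), volume {a | t < ‖T g a‖} *
        ENNReal.ofReal (t ^ (P - 1))
      ≤ ENNReal.ofReal P * (ENNReal.ofReal C *
        ENNReal.ofReal ((S + 1) ^ (P - 5 + 1) / (P - 5 + 1))) := by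
        gcongr
        refine h5.trans ?_
        rw [lintegral_const_mul' _ _ ENNReal.ofReal_ne_top,
          Pool.Agent.H438R2.BR.T7.lint_pow (S + 1) (P - 5) (by linarith) (by linarith)]
    _ = _ := by
        rw [← ENNReal.ofReal_mul (by positivity), ← ENNReal.ofReal_mul hP0.le]

/-- all bounded densities -/
theorem est2 (P : ℝ) (hP : 4 < P) : ∃ C : ℝ, 0 < C ∧ ∀ g : E 3 → ℂ, Measurable g →
    (∃ M : ℝ, ∀ x, ‖g x‖ ≤ M) → ∀ h : ℝ, 0 ≤ h → ∫ w, ‖g w‖ ^ 2 ∂(sg 3) = h ^ 2 →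
    ∫⁻ z, ‖T g z‖ₑ ^ P ≤ ENNReal.ofReal (C * h ^ P) := by
  obtain ⟨C, hC, hw⟩ := est P hP
  have hP0 : 0 < P := by linarith
  refine ⟨C, hC, fun g hg hb h hh hH => ?_⟩
  obtain ⟨M, hM⟩ := hb
  rcases hh.eq_or_lt with h0 | h0
  · have e : ∀ z, T g z = 0 := fun z => by
      have h1 := T_cs g hg M hM z
      rw [hH, ← h0] at h1
      have h2 : ‖T g z‖ ^ 2 ≤ 0 := by simpa using h1
      have h3 : ‖T g z‖ = 0 := by
        have := sq_nonneg ‖T g z‖
        exact pow_eq_zero_iff (two_ne_zero) |>.1 (le_antisymm h2 this)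
      exact norm_eq_zero.1 h3
    simp [e, hP0]
  · have h1 := hw (fun w => ((h⁻¹ : ℝ) : ℂ) * g w) (hg.const_mul _) ⟨|h⁻¹| * M, fun w => by
        rw [norm_mul, Complex.norm_real, Real.norm_eq_abs]
        exact mul_le_mul_of_nonneg_left (hM w) (abs_nonneg _)⟩ (by
        have e : ∀ w, ‖((h⁻¹ : ℝ) : ℂ) * g w‖ ^ 2 = (h⁻¹) ^ 2 * ‖g w‖ ^ 2 := fun w => by
          rw [norm_mul, Complex.norm_real, Real.norm_eq_abs, mul_pow, sq_abs]
        simp only [e]
        rw [integral_const_mul, hH, inv_pow, inv_mul_cancel₀ (by positivity)])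
    have e2 : ∀ z, T g z = (h : ℂ) * T (fun w => ((h⁻¹ : ℝ) : ℂ) * g w) z := fun z => by
      unfold T
      rw [← integral_const_mul]
      refine integral_congr_ae (Filter.Eventually.of_forall fun w => ?_)
      simp only
      have : (h : ℂ) * ((h⁻¹ : ℝ) : ℂ) = 1 := by
        rw [← Complex.ofReal_mul, mul_inv_cancel₀ h0.ne', Complex.ofReal_one]
      linear_combination (-(Complex.exp (-((⟪z, w⟫ : ℝ) : ℂ) * I) * g w)) * this
    have e3 : ∀ z, ‖T g z‖ₑ ^ P = ENNReal.ofReal (h ^ P) *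
        ‖T (fun w => ((h⁻¹ : ℝ) : ℂ) * g w) z‖ₑ ^ P := fun z => by
      rw [e2 z, enorm_mul, ENNReal.mul_rpow_of_nonneg _ _ hP0.le, ← ofReal_norm (h : ℂ),
        Complex.norm_real, Real.norm_of_nonneg hh, ENNReal.ofReal_rpow_of_nonneg hh hP0.le]
    simp only [e3]
    rw [lintegral_const_mul' _ _ ENNReal.ofReal_ne_top, mul_comm C,
      ENNReal.ofReal_mul (by positivity)]
    gcongr

theorem ts : S_TS := by
  intro P hP
  have hP0 : 0 < P := by linarith
  obtain ⟨C, hC, hw⟩ := est2 P hP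
  refine ⟨(C ^ (1 / P)).toNNReal, fun g hg hb => ?_⟩
  obtain ⟨M, hM⟩ := hb
  have hfin : IsFiniteMeasure sig := by unfold sig; infer_instance
  obtain ⟨G, hG⟩ : ∃ G : E 3 → ℂ, G = Function.extend ((↑) : S2 → E3) g 0 := ⟨_, rfl⟩
  have hGm : Measurable G := by
    rw [hG]
    exact (MeasurableEmbedding.subtype_coe (Metric.isClosed_sphere.measurableSet)).measurable_extend
      hg measurable_const
  have hGg : ∀ x : S2, G x = g x := fun x => by
    rw [hG]
    exact Subtype.val_injective.extend_apply g 0 x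
  have hM0 : 0 ≤ |M| := abs_nonneg _
  have hGb : ∀ x, ‖G x‖ ≤ |M| := fun x => by
    by_cases hx : x ∈ Metric.sphere (0 : E3) 1
    · have := hGg ⟨x, hx⟩
      change G x = _ at this
      rw [this]
      exact (hM _).trans (le_abs_self M)
    · have : G x = 0 := by
        rw [hG]
        apply Function.extend_apply'
        rintro ⟨y, hy⟩
        exact hx (hy ▸ y.2)
      rw [this, norm_zero]
      exact hM0
  -- the norms
  have hint : ∫ w, ‖G w‖ ^ 2 ∂(sg 3) = ∫ x, ‖g x‖ ^ 2 ∂sig := by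
    have e : sg 3 = sig.map ((↑) : S2 → E3) := rfl
    rw [e, integral_map measurable_subtype_coe.aemeasurable
      (hGm.norm.pow_const 2).aestronglyMeasurable]
    simp only [hGg]
  obtain ⟨h, hh⟩ : ∃ h : ℝ, h = √(∫ x, ‖g x‖ ^ 2 ∂sig) := ⟨_, rfl⟩
  have hH0 : 0 ≤ ∫ x, ‖g x‖ ^ 2 ∂sig := integral_nonneg fun x => by positivity
  have hh0 : 0 ≤ h := by rw [hh]; exact Real.sqrt_nonneg _
  have hh2 : ∫ w, ‖G w‖ ^ 2 ∂(sg 3) = h ^ 2 := by
    rw [hint, hh, Real.sq_sqrt hH0]
  have hnorm : eLpNorm g 2 sig = ENNReal.ofReal h := by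
    have i2 : Integrable (fun w => ‖g w‖ ^ 2) sig :=
      Integrable.of_bound (hg.norm.pow_const 2).aestronglyMeasurable (|M| ^ 2)
        (Filter.Eventually.of_forall fun w => by
          rw [norm_pow, norm_norm]
          exact pow_le_pow_left₀ (norm_nonneg _) ((hM w).trans (le_abs_self M)) 2)
    rw [eLpNorm_eq_lintegral_rpow_enorm_toReal (by norm_num) (by norm_num), hh, Real.sqrt_eq_rpow,
      ← ENNReal.ofReal_rpow_of_nonneg hH0 (by norm_num),
      ofReal_integral_eq_lintegral_ofReal i2 (Filter.Eventually.of_forall fun w => by positivity)]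
    have e2 : (2 : ℝ≥0∞).toReal = 2 := by norm_num
    rw [e2]
    congr 1
    refine lintegral_congr fun w => ?_
    rw [← ofReal_norm, ENNReal.ofReal_rpow_of_nonneg (norm_nonneg _) (by norm_num)]
    norm_num
  have hft := Pool.Agent.Y61.MB.ft_int_le (n := 3) P g G hGm
    (Filter.Eventually.of_forall fun x => (hGg x).symm)
  have hft2 : ∫⁻ ξ, ‖ft g ξ‖ₑ ^ P ≤ ENNReal.ofReal (C * h ^ P) :=
    hft.2.trans (hw G hGm ⟨|M|, hGb⟩ h hh0 hh2)
  rw [eLpNorm_eq_lintegral_rpow_enorm_toReal (by simpa using hP0) ENNReal.ofReal_ne_top,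
    ENNReal.toReal_ofReal hP0.le, hnorm]
  refine (ENNReal.rpow_le_rpow hft2 (by positivity)).trans (le_of_eq ?_)
  rw [ENNReal.ofReal_rpow_of_nonneg (by positivity) (by positivity),
    Real.mul_rpow hC.le (by positivity), ← Real.rpow_mul hh0, mul_one_div_cancel hP0.ne',
    Real.rpow_one, ENNReal.ofReal_mul (by positivity)]
  rfl

end Pool.Agent.Y438.SS
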